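import Mathlib
import Pool.Agent.Y504.GN.Main

set_option autoImplicit false

open Finset

namespace Pool.Agent.Results.MP_b48dd4_gt.GromovBound

open Pool.Agent.Y504.GN

/-- Gromov's question on geodesic nets, answered affirmatively, in every dimension `d` (the question
is `d = 2`): there is a function `F` such that every geodesic net in `ℝ^d` with `n` unbalanced
vertices and total imbalance at most `I` has at most `F n I` balanced vertices. -/
theorem result (d : ℕ) : ∃ F : ℕ → ℝ → ℕ, ∀ (n : ℕ) (I : ℝ) (G : GeodesicNet d), G.Proper →
    #G.unbalanced = n → G.totalImbalance ≤ I → #G.balanced ≤ F n I := by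
  choose F hF using main d
  exact ⟨F, hF⟩

end Pool.Agent.Results.MP_b48dd4_gt.GromovBound
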